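import Pool.Agent.W850.Ord.Diag

/-!
# A common infinite set of ordinary primes for all motives in a large tensor category

`K₀` is a number field.  The generators: for every `n : ℕ` a finite extension `K n` of `K₀` and finitely
many pure motives `A n i` over `K n` with multiplication by totally real or CM fields, each with its own
finite set `S n i` of bad residue characteristics (over `K n` the `ℓ n`-adic monodromy groups are
connected, for one prime `ℓ n`).  The fields and the families may grow with `n`.  For example, `A n` are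
the first `n` members of an enumeration of the following motives over finite extensions of `K₀`, all
considered over a large finite extension `K n`: the `H¹` of all elliptic curves and all abelian surfaces,
the `H²` of all K3 surfaces, and other motives with multiplications with small Hodge numbers.

Orbit condition: for every `n` there is an element `γ` of the Galois group of `K n` which is `Admissible`
for all `A n i` (the identity will do if the defects are at most two, as in the example).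

Theorem.  There is *one* infinite set `P` of primes of `K₀` which works for *all* of the following `M` and
`R`.  Let `M` be a motive over `K₀` (for instance one which realises intersection cohomology): the
realisations `V ℓ'` are strictly compatible outside a finite set `T` of residue characteristics, which
depends on `M`, and `M` is potentially in the tensor category generated by the `A n i`: for all large `n`,
over `K n`, a Tate twist of `M` is a direct summand of a direct sum of tensor products of pieces of the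
`A n i` (`IsSummand`).  Then `M` is ordinary at all but finitely many primes in `P`.  Let `R = e M` be any
direct summand of `M`, its realisations need not be strictly compatible, such that Mazur's inequality
holds for all realisations and all embeddings `τ`, for `R` and for its complement (`IsPart`).  Then for
all but finitely many primes in `P`, for all `ℓ'` and all embeddings `τ`, the Newton polygon of `R ℓ'` is
the Hodge polygon.

The lower density of `P` is at least `c`, if `c` is at most the proportion of the admissible elements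
divided by `[K n : K₀]`, for every `n`.  So if all fields `K n` are `K₀` and all elements are admissible,
`P` has density one.
-/

set_option autoImplicit false

namespace Pool.Agent.Results.MP_0dad22_ag.CommonOrdinaryPrimes

open NumberField IsDedekindDomain Polynomial Filter Topology
open Pool.Agent.W401.Cheb Pool.Agent.W528.Ord Pool.Agent.R915.Ord Pool.Agent.W850.Ord

/-- The `V ℓ'` are strictly compatible: at the places of degree one outside `T` the characteristic
polynomial of the geometric Frobenius element (the inverse of `γ`) is `F v`. -/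
def StrictlyCompatible {K₀ : Type} [Field K₀] [NumberField K₀] (T : Finset ℕ) {r : ℕ}
    (V : ∀ (ℓ' : ℕ) [Fact ℓ'.Prime], GK K₀ →* Matrix.GeneralLinearGroup (Fin r) ℚ_[ℓ'])
    (F : HeightOneSpectrum (𝓞 K₀) → Polynomial ℤ) : Prop :=
  ∀ (ℓ' : ℕ) [Fact ℓ'.Prime] (v₀ : HeightOneSpectrum (𝓞 K₀)), MultSystem.IsDeg1 T v₀ →
    Ideal.absNorm v₀.asIdeal ≠ ℓ' → ∀ γ : GK K₀, IsFrob v₀ γ →
      (V ℓ' γ⁻¹ : Matrix (Fin r) (Fin r) ℚ_[ℓ']).charpoly = (F v₀).map (Int.castRingHom ℚ_[ℓ'])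

/-- `v₀` has degree one, and for every prime `ℓ'` different from the residue characteristic `p = N v₀`
and every embedding `τ` of the field of algebraic numbers the Newton polygon of `V ℓ'` at `v₀` has the
slopes `H`. -/
def Ordinary {K₀ : Type} [Field K₀] [NumberField K₀] {r : ℕ}
    (V : ∀ (ℓ' : ℕ) [Fact ℓ'.Prime], GK K₀ →* Matrix.GeneralLinearGroup (Fin r) ℚ_[ℓ'])
    (H : Multiset ℕ) (v₀ : HeightOneSpectrum (𝓞 K₀)) : Prop :=
  ∃ (p : ℕ) (_ : Fact p.Prime), Ideal.absNorm v₀.asIdeal = p ∧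
    ∀ (ℓ' : ℕ) [Fact ℓ'.Prime], p ≠ ℓ' → ∀ γ : GK K₀, IsFrob v₀ γ →
      ∀ τ : algebraicClosure ℚ (PadicAlgCl ℓ') →+* PadicAlgCl p,
        NewtonTau (V ℓ' γ⁻¹ : Matrix (Fin r) (Fin r) ℚ_[ℓ']) τ H

/-- The `R ℓ'`, with Hodge slopes `H₁`, are direct summands of the `V ℓ'`, with Hodge slopes `H`; at the
places of degree one outside `T` Mazur's inequality holds for all `ℓ'` and all embeddings `τ`, for the
`R ℓ'` and for the complements `R' ℓ'`. -/
def IsPart {K₀ : Type} [Field K₀] [NumberField K₀] (T : Finset ℕ) {r r₁ : ℕ}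
    (V : ∀ (ℓ' : ℕ) [Fact ℓ'.Prime], GK K₀ →* Matrix.GeneralLinearGroup (Fin r) ℚ_[ℓ']) (H : Multiset ℕ)
    (R : ∀ (ℓ' : ℕ) [Fact ℓ'.Prime], GK K₀ →* Matrix.GeneralLinearGroup (Fin r₁) ℚ_[ℓ'])
    (H₁ : Multiset ℕ) : Prop :=
  ∃ (r₂ : ℕ) (R' : ∀ (ℓ' : ℕ) [Fact ℓ'.Prime], GK K₀ →* Matrix.GeneralLinearGroup (Fin r₂) ℚ_[ℓ'])
    (H₂ : Multiset ℕ), H₁ + H₂ = H ∧
    ∀ (ℓ' p : ℕ) [Fact ℓ'.Prime] [Fact p.Prime], p ∉ T → p ≠ ℓ' → ∀ v₀ : HeightOneSpectrum (𝓞 K₀),
      Ideal.absNorm v₀.asIdeal = p → ∀ γ : GK K₀, IsFrob v₀ γ →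
      (V ℓ' γ⁻¹ : Matrix (Fin r) (Fin r) ℚ_[ℓ']).charpoly =
        (R ℓ' γ⁻¹ : Matrix (Fin r₁) (Fin r₁) ℚ_[ℓ']).charpoly *
        (R' ℓ' γ⁻¹ : Matrix (Fin r₂) (Fin r₂) ℚ_[ℓ']).charpoly ∧
      ∀ τ : algebraicClosure ℚ (PadicAlgCl ℓ') →+* PadicAlgCl p,
        AboveTau (R ℓ' γ⁻¹ : Matrix (Fin r₁) (Fin r₁) ℚ_[ℓ']) τ H₁ ∧
        AboveTau (R' ℓ' γ⁻¹ : Matrix (Fin r₂) (Fin r₂) ℚ_[ℓ']) τ H₂

theorem ordinary_of {K₀ : Type} [Field K₀] [NumberField K₀] (T : Finset ℕ) {r : ℕ}
    (V : ∀ (ℓ' : ℕ) [Fact ℓ'.Prime], GK K₀ →* Matrix.GeneralLinearGroup (Fin r) ℚ_[ℓ'])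
    (F : HeightOneSpectrum (𝓞 K₀) → Polynomial ℤ) (H : Multiset ℕ) (hV : StrictlyCompatible T V F)
    (v₀ : HeightOneSpectrum (𝓞 K₀)) (hv : MultSystem.IsDeg1 T v₀)
    (hN : NewtonSlopes (Ideal.absNorm v₀.asIdeal) (F v₀) H) : Ordinary V H v₀ := by
  have hN' := hN
  obtain ⟨hp, -⟩ := hN
  refine ⟨Ideal.absNorm v₀.asIdeal, hp, rfl, ?_⟩
  intro ℓ' _ hne γ hγ τ
  exact newtonTau_of _ τ _ (F v₀) (hV ℓ' v₀ hv hne γ hγ) hN'

theorem ordinary_part {K₀ : Type} [Field K₀] [NumberField K₀] (T : Finset ℕ) {r r₁ : ℕ}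
    (V : ∀ (ℓ' : ℕ) [Fact ℓ'.Prime], GK K₀ →* Matrix.GeneralLinearGroup (Fin r) ℚ_[ℓ']) (H : Multiset ℕ)
    (R : ∀ (ℓ' : ℕ) [Fact ℓ'.Prime], GK K₀ →* Matrix.GeneralLinearGroup (Fin r₁) ℚ_[ℓ'])
    (H₁ : Multiset ℕ) (hR : IsPart T V H R H₁) (v₀ : HeightOneSpectrum (𝓞 K₀))
    (hv : Ideal.absNorm v₀.asIdeal ∉ T) (hV : Ordinary V H v₀) : Ordinary R H₁ v₀ := by
  obtain ⟨p, hp, hvp, hV⟩ := hV
  obtain ⟨r₂, R', H₂, hH, hR⟩ := hR
  rw [hvp] at hv
  refine ⟨p, hp, hvp, ?_⟩
  intro ℓ' _ hne γ hγ τ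
  obtain ⟨h1, h2⟩ := hR ℓ' p hv hne v₀ hvp γ hγ
  exact newtonTau_part _ _ _ τ H H₁ H₂ (hV ℓ' hne γ hγ τ) h1 hH (h2 τ).1 (h2 τ).2

theorem result (K₀ : Type) [Field K₀] [NumberField K₀]
    -- the fields of definition and the generators
    (K : ℕ → Type) [∀ n, Field (K n)] [∀ n, NumberField (K n)] [∀ n, Algebra K₀ (K n)]
    (ℓ : ℕ → ℕ) [∀ n, Fact (ℓ n).Prime] (ι : ℕ → Type) [∀ n, Fintype (ι n)]
    (A : ∀ n, ι n → MotSystem (K n) (ℓ n)) (χ : ∀ n, GK (K n) →* (PadicAlgCl (ℓ n))ˣ)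
    (S : ∀ n, ι n → Finset ℕ) (hA : ∀ n i, (A n i).IsMotive (χ n) (S n i))
    -- the orbit condition, and the proportion of the elements which satisfy it
    (hγ : ∀ n, ∃ γ : GK (K n), ∀ i, (A n i).Admissible γ)
    (c : ℝ) (hc : ∀ n, c ≤ MotSystem.admProportion (A n) / (Module.finrank K₀ (K n) : ℝ)) :
    ∃ P : Set (HeightOneSpectrum (𝓞 K₀)), P.Infinite ∧ c ≤ lowerDensity (fun v₀ => v₀ ∈ P) ∧
      -- all motives `M` in the tensor category
      ∀ (T : Finset ℕ) (r : ℕ)
        (V : ∀ (ℓ' : ℕ) [Fact ℓ'.Prime], GK K₀ →* Matrix.GeneralLinearGroup (Fin r) ℚ_[ℓ'])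
        (F : HeightOneSpectrum (𝓞 K₀) → ℤ[X]) (H : Multiset ℕ), StrictlyCompatible T V F →
        (∀ᶠ n in atTop, IsSummand (A n) T F H) →
        {v₀ ∈ P | ¬ Ordinary V H v₀}.Finite ∧
        -- all direct summands `R` of `M`
        ∀ (T₁ : Finset ℕ) (r₁ : ℕ)
          (R : ∀ (ℓ' : ℕ) [Fact ℓ'.Prime], GK K₀ →* Matrix.GeneralLinearGroup (Fin r₁) ℚ_[ℓ'])
          (H₁ : Multiset ℕ), IsPart T₁ V H R H₁ → {v₀ ∈ P | ¬ Ordinary R H₁ v₀}.Finite := by
  obtain ⟨P, hinf, hdens, hfin⟩ := diagonal (fun n => Below K₀ (A n) (S n))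
    (fun n => lt_of_lt_of_le (div_pos (MotSystem.admProportion_pos (A n) (hγ n)) (by
      have : FiniteDimensional K₀ (K n) := Module.Finite.of_restrictScalars_finite ℚ K₀ (K n)
      exact_mod_cast Module.finrank_pos)) (lower_below (A n) (χ n) (S n) (hA n))) c
    (fun n => (hc n).trans (lower_below (A n) (χ n) (S n) (hA n)))
  refine ⟨P, hinf, hdens, fun T r V F H hV hF => ?_⟩
  have key : {v₀ ∈ P | ¬ Ordinary V H v₀}.Finite := by
    obtain ⟨n₀, hn₀⟩ := eventually_atTop.mp hF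
    refine ((hfin n₀).union (finite_norm_mem (K := K₀) T)).subset ?_
    rintro v₀ ⟨hv, hno⟩
    by_contra hcon
    apply hno
    rw [Set.mem_union, not_or] at hcon
    obtain ⟨h1, h2⟩ := hcon
    obtain ⟨n, hn, v, h0, hg⟩ : ∃ n, n₀ ≤ n ∧ Below K₀ (A n) (S n) v₀ := by
      by_contra h3
      push Not at h3
      exact h1 ⟨hv, h3⟩
    have e := under_norm v hg.1 v₀ h0
    have h2' : Ideal.absNorm v₀.asIdeal ∉ T := h2
    refine ordinary_of T V F H hV v₀ ⟨e ▸ hg.1, h2'⟩ ?_
    exact newton_of_good' (A n) (χ n) (S n) (hA n) (hn₀ n hn) v₀ v h0 hg (e ▸ h2')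
  refine ⟨key, fun T₁ r₁ R H₁ hR => ?_⟩
  refine (key.union (finite_norm_mem (K := K₀) T₁)).subset ?_
  rintro v₀ ⟨hv, hno⟩
  by_contra hcon
  apply hno
  rw [Set.mem_union, not_or] at hcon
  obtain ⟨h1, h2⟩ := hcon
  refine ordinary_part T₁ V H R H₁ hR v₀ h2 ?_
  by_contra h3
  exact h1 ⟨hv, h3⟩

end Pool.Agent.Results.MP_0dad22_ag.CommonOrdinaryPrimes
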