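import Pool.Agent.R905.OR.Real

/-!
# Ordinary primes for summands of intersection cohomology and smooth affine cubic hypersurfaces

`K` is a number field. For a place `v` of good reduction of the separated `K`-scheme `X` of finite type,
`T.H v X n` is the rigid cohomology with compact supports `H^n_c` of the reduction, with its linear
Frobenius `φ` and its Hodge filtration `F`, over an algebraically closed extension `E v` of the
completion. The objects `M` are the direct summands `e M` (with `e` an idempotent endomorphism as a
motive for motivated cycles) of the motives which realize the spaces `H^k(X, j_{!*} R^i π_* ℚ_ℓ)`, and
`W.R v M` is the crystalline realization of `M` at `v`. By the decomposition theorem it is a direct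
factor of `H^{i+k}` of a smooth projective compactification of the total space, for almost all `v`. The
place `v` is ordinary for `M` if the slope and Hodge filtrations are opposite; for the (weakly
admissible) realizations at almost all `v` this means that the Newton and Hodge polygons coincide.
-/

set_option autoImplicit false

open AlgebraicGeometry Pool.Agent.R904.CU Pool.Agent.R905.WM Pool.Agent.R905.OR

namespace Pool.Agent.Results.MP_0dad22_ag.CubicHypersurfaces

/-- Let `S` be a class of schemes such as the smooth projective varieties over the number field `K`, and
`W` realizations such as those of the summands of the motives of intersection cohomology. The following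
are equivalent:
(1) every `M` has infinitely many ordinary places;
(2) every smooth hypersurface of degree at most three in an affine space over `K` has infinitely many
ordinary places. -/
theorem result (K : Type) [Field K] [NumberField K] (E : Place K → Type) [∀ v, Field (E v)]
    [∀ v, CharZero (E v)] [∀ v, IsAlgClosed (E v)] (val : ∀ v, AddValuation (E v) (WithTop ℝ))
    (T : FilteredCohomology K (Place K) E)
    (hT : T.IsCohomology Filter.cofinite (fun v => (Ideal.absNorm v.asIdeal : E v)) val)
    (S : SchProp K) (hM : Models S) (Ob : Type 1) [Nonempty Ob]
    (W : Realizations (Place K) E Ob) (hW : T.IsFactorOf Filter.cofinite W S)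
    (hW' : T.Contains Filter.cofinite W S) (hJ : W.Joint Filter.cofinite val) :
    (∀ M, (W.Ord val M).Infinite) ↔
     ∀ (σ : Type) [Fintype σ] (F : MvPolynomial σ K), IsSmoothCubic F →
       (T.Ord val _ (hyp F)).Infinite :=
  FilteredCohomology.main_factor hT infinite_largeness hM hW hW' hJ inferInstance

end Pool.Agent.Results.MP_0dad22_ag.CubicHypersurfaces
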