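import Pool.Agent.R142.OrdFam

/-!
# Summands of K3 type and of abelian surface type: one prime suffices

`K` is a number field and `R` a motive over `K` (for instance `R = e M` with `M` realising the
intersection cohomology of a projective variety): the realisations `R ℓ` are continuous and strictly
compatible outside a finite set `B` of places, with the Frobenius polynomials `F v ∈ ℤ[T]` (`Compatible`),
pure of weight `w` (`Weight`), and satisfy Mazur's inequality at the places of degree one (`Mazur`).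

* K3 type: weight `2 (a + 1)`, Hodge slopes `a`, `a + 1` (`m` times), `a + 2` (transcendental or primitive
  parts of `H²` of K3 surfaces and hyperkähler varieties, `H⁴` of cubic fourfolds, ...); `j = 1`,
  `u = a + 1`.
* abelian surface type: weight `2 a + 1`, Hodge slopes `a, a, a + 1, a + 1`; `j = 2`, `u = 2 a + 1`.

For `R` of dimension `n` of one of these types the following are equivalent: at one place `v` outside `B`,
of any degree, the coefficient of `T ^ (n - j)` in the characteristic polynomial of Frobenius (for `j = 1`: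
the trace) is not divisible by `N(v) ^ u`; infinitely many primes are ordinary for `R`; the primes which
are ordinary for *all* direct summands of `R` have lower density at least `1 / (n.choose j) ^ 2` (that is
`1 / n ^ 2` in the first case, `1 / 36` in the second).

Ordinary means: degree one, and for all `ℓ` different from the residue characteristic `p` and all
embeddings `τ` of the field of algebraic numbers into `ℚ̄_p` the Newton polygon is the Hodge polygon.  The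
direct summands need not be strictly compatible and may have coefficients in a larger field.
-/

set_option autoImplicit false

namespace Pool.Agent.Results.MP_0dad22_ag.OnePrimeSuffices

open NumberField IsDedekindDomain Polynomial Filter Topology
open Pool.Agent.W401.Cheb Pool.Agent.W528.Ord Pool.Agent.W850.Ord Pool.Agent.R142.Ord

variable {K : Type} [Field K] [NumberField K]

/-- `v₀` has degree one, and for every prime `ℓ` different from the residue characteristic `p = N v₀` and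
every embedding `τ` of the field of algebraic numbers the Newton polygon of `R ℓ` at `v₀` has the slopes
`H`. -/
def Ordinary {r : ℕ}
    (R : ∀ (ℓ : ℕ) [Fact ℓ.Prime], GK K →* Matrix.GeneralLinearGroup (Fin r) ℚ_[ℓ])
    (H : Multiset ℕ) (v₀ : HeightOneSpectrum (𝓞 K)) : Prop :=
  ∃ (p : ℕ) (_ : Fact p.Prime), Ideal.absNorm v₀.asIdeal = p ∧
    ∀ (ℓ : ℕ) [Fact ℓ.Prime], p ≠ ℓ → ∀ γ : GK K, IsFrob v₀ γ →
      ∀ τ : algebraicClosure ℚ (PadicAlgCl ℓ) →+* PadicAlgCl p,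
        NewtonTau (R ℓ γ⁻¹ : Matrix (Fin r) (Fin r) ℚ_[ℓ]) τ H

/-- The `R₁ ℓ`, with Hodge slopes `H₁`, are direct summands of the `R ℓ`, with Hodge slopes `H`; at the
places of degree one outside `B` Mazur's inequality holds for all `ℓ` and all embeddings `τ`, for the
`R₁ ℓ` and for the complements `R₂ ℓ`. -/
def IsPart (B : Set (HeightOneSpectrum (𝓞 K))) {r r₁ : ℕ}
    (R : ∀ (ℓ : ℕ) [Fact ℓ.Prime], GK K →* Matrix.GeneralLinearGroup (Fin r) ℚ_[ℓ]) (H : Multiset ℕ)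
    (R₁ : ∀ (ℓ : ℕ) [Fact ℓ.Prime], GK K →* Matrix.GeneralLinearGroup (Fin r₁) ℚ_[ℓ])
    (H₁ : Multiset ℕ) : Prop :=
  ∃ (r₂ : ℕ) (R₂ : ∀ (ℓ : ℕ) [Fact ℓ.Prime], GK K →* Matrix.GeneralLinearGroup (Fin r₂) ℚ_[ℓ])
    (H₂ : Multiset ℕ), H₁ + H₂ = H ∧
    ∀ (ℓ p : ℕ) [Fact ℓ.Prime] [Fact p.Prime], p ≠ ℓ → ∀ v₀ : HeightOneSpectrum (𝓞 K), v₀ ∉ B →
      Ideal.absNorm v₀.asIdeal = p → ∀ γ : GK K, IsFrob v₀ γ →
      (R ℓ γ⁻¹ : Matrix (Fin r) (Fin r) ℚ_[ℓ]).charpoly =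
        (R₁ ℓ γ⁻¹ : Matrix (Fin r₁) (Fin r₁) ℚ_[ℓ]).charpoly *
        (R₂ ℓ γ⁻¹ : Matrix (Fin r₂) (Fin r₂) ℚ_[ℓ]).charpoly ∧
      ∀ τ : algebraicClosure ℚ (PadicAlgCl ℓ) →+* PadicAlgCl p,
        AboveTau (R₁ ℓ γ⁻¹ : Matrix (Fin r₁) (Fin r₁) ℚ_[ℓ]) τ H₁ ∧
        AboveTau (R₂ ℓ γ⁻¹ : Matrix (Fin r₂) (Fin r₂) ℚ_[ℓ]) τ H₂

/-- `v₀` is ordinary for `R` and for all direct summands of `R` -/
def AllOrdinary (B : Set (HeightOneSpectrum (𝓞 K))) {r : ℕ}
    (R : ∀ (ℓ : ℕ) [Fact ℓ.Prime], GK K →* Matrix.GeneralLinearGroup (Fin r) ℚ_[ℓ]) (H : Multiset ℕ)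
    (v₀ : HeightOneSpectrum (𝓞 K)) : Prop :=
  Ordinary R H v₀ ∧ ∀ (r₁ : ℕ)
    (R₁ : ∀ (ℓ : ℕ) [Fact ℓ.Prime], GK K →* Matrix.GeneralLinearGroup (Fin r₁) ℚ_[ℓ])
    (H₁ : Multiset ℕ), IsPart B R H R₁ H₁ → Ordinary R₁ H₁ v₀

theorem all_of_slopes (B : Set (HeightOneSpectrum (𝓞 K))) {r : ℕ}
    (R : ∀ (ℓ : ℕ) [Fact ℓ.Prime], GK K →* Matrix.GeneralLinearGroup (Fin r) ℚ_[ℓ])
    (F : HeightOneSpectrum (𝓞 K) → ℤ[X]) (hR : Compatible B R F) (H : Multiset ℕ)
    (v : HeightOneSpectrum (𝓞 K)) (hv : v ∉ B) (hp : (Ideal.absNorm v.asIdeal).Prime)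
    (h : NewtonSlopes (Ideal.absNorm v.asIdeal) (F v) H) : AllOrdinary B R H v := by
  haveI : Fact (Ideal.absNorm v.asIdeal).Prime := ⟨hp⟩
  have h1 : ∀ (ℓ : ℕ) [Fact ℓ.Prime], Ideal.absNorm v.asIdeal ≠ ℓ → ∀ γ : GK K, IsFrob v γ →
      ∀ τ : algebraicClosure ℚ (PadicAlgCl ℓ) →+* PadicAlgCl (Ideal.absNorm v.asIdeal),
        NewtonTau (R ℓ γ⁻¹ : Matrix (Fin r) (Fin r) ℚ_[ℓ]) τ H := by
    intro ℓ hℓ hne γ hγ τ
    exact newtonTau_of _ τ _ (F v) ((hR ℓ).2 v hv (not_mem_of_ne v _ ℓ hp hℓ.out rfl hne) γ hγ) h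
  refine ⟨⟨_, ⟨hp⟩, rfl, h1⟩, ?_⟩
  intro r₁ R₁ H₁ hpart
  obtain ⟨r₂, R₂, H₂, hH, hR₁⟩ := hpart
  refine ⟨_, ⟨hp⟩, rfl, ?_⟩
  intro ℓ _ hne γ hγ τ
  obtain ⟨h2, h3⟩ := hR₁ ℓ _ hne v hv rfl γ hγ
  exact newtonTau_part _ _ _ τ H H₁ H₂ (h1 ℓ hne γ hγ τ) h2 hH (h3 τ).1 (h3 τ).2

theorem slopes_of_ordinary (B : Set (HeightOneSpectrum (𝓞 K))) {r : ℕ}
    (R : ∀ (ℓ : ℕ) [Fact ℓ.Prime], GK K →* Matrix.GeneralLinearGroup (Fin r) ℚ_[ℓ])
    (F : HeightOneSpectrum (𝓞 K) → ℤ[X]) (hR : Compatible B R F) (H : Multiset ℕ)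
    (v : HeightOneSpectrum (𝓞 K)) (hv : v ∉ B) (h : Ordinary R H v) :
    ∃ (p : ℕ) (_ : Fact p.Prime), Ideal.absNorm v.asIdeal = p ∧ NewtonSlopes p (F v) H := by
  obtain ⟨p, hp, hvp, h⟩ := h
  obtain ⟨ℓ, hℓ, hne⟩ : ∃ ℓ : ℕ, ℓ.Prime ∧ p ≠ ℓ := by
    by_cases h2 : p = 2
    · exact ⟨3, Nat.prime_three, by omega⟩
    · exact ⟨2, Nat.prime_two, h2⟩
  haveI : Fact ℓ.Prime := ⟨hℓ⟩
  obtain ⟨γ, hγ⟩ := exists_isFrob v
  obtain ⟨τ⟩ := exists_tau' (p := p) ℓ
  exact ⟨p, hp, hvp, slopes_of_tau _ τ H (F v)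
    ((hR ℓ).2 v hv (not_mem_of_ne v p ℓ hp.out hℓ hvp hne) γ hγ) (h ℓ hne γ hγ τ)⟩

/-- K3 type (`j = 1`) and abelian surface type (`j = 2`): weight `w`, Hodge slopes `H`, `N(v) ^ u` divides
the coefficient of `T ^ (n - j)` unless `v` is ordinary -/
inductive SmallType : (w : ℕ) → (H : List ℕ) → (j u : ℕ) → Prop
  | k3 (a m : ℕ) : SmallType (2 * (a + 1)) (k3Slopes a m) 1 (a + 1)
  | ab (a : ℕ) : SmallType (2 * a + 1) (abSlopes a) 2 (2 * a + 1)

/-- **One prime suffices.** -/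
theorem result (K : Type) [Field K] [NumberField K] (B : Set (HeightOneSpectrum (𝓞 K)))
    (hB : B.Finite) (w j u : ℕ) (H : List ℕ) (hH : SmallType w H j u) (n : ℕ) (hn : n = H.length)
    (R : ∀ (ℓ : ℕ) [Fact ℓ.Prime], GK K →* Matrix.GeneralLinearGroup (Fin n) ℚ_[ℓ])
    (F : HeightOneSpectrum (𝓞 K) → ℤ[X]) (hR : Compatible B R F) (hW : Weight B w F)
    (hM : Mazur B H F) : List.TFAE [
      ∃ v, v ∉ B ∧ ¬ (Ideal.absNorm v.asIdeal : ℤ) ^ u ∣ (F v).coeff (n - j),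
      {v | Ordinary R H v}.Infinite,
      1 / (n.choose j : ℝ) ^ 2 ≤ lowerDensity (AllOrdinary B R H)] := by
  cases hH with
  | k3 a m =>
    have hlen : (k3Slopes a m).length = m + 2 := by
      unfold k3Slopes
      simp
    have hn' : n = m + 2 := hn.trans hlen
    subst hn'
    have hpos : (0 : ℝ) < 1 / ((m + 2).choose 1 : ℝ) ^ 2 := by
      rw [Nat.choose_one_right]
      positivity
    tfae_have 1 → 3 := by
      rintro ⟨v₀, hv₀, h₀⟩
      have h1 := engine B hB R F hR (2 * (a + 1)) hW 1 (a + 1) (Or.inl rfl) (by omega) (by ring)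
        v₀ hv₀ h₀
      refine h1.trans (lowerDensity_mono _ _ ?_)
      rintro v ⟨hv, hp, hno⟩
      haveI : Fact (Ideal.absNorm v.asIdeal).Prime := ⟨hp⟩
      obtain ⟨hm, hn⟩ := monic_of B R F hR v hv
      refine all_of_slopes B R F hR _ v hv hp ?_
      refine newton_k3 a m (F v) hm hn (hW v hv) ?_ hno
      intro k hk
      have := hM v hv hp k (by omega)
      rwa [hlen] at this
    tfae_have 3 → 2 := by
      intro h
      refine (infinite_of _ _ hpos h).mono ?_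
      rintro v ⟨hv, -⟩
      exact hv
    tfae_have 2 → 1 := by
      intro h
      obtain ⟨v, hv, hvB⟩ := (h.sdiff hB).nonempty
      obtain ⟨p, hp, hvp, hs⟩ := slopes_of_ordinary B R F hR _ v hvB hv
      obtain ⟨hm, hn⟩ := monic_of B R F hR v hvB
      refine ⟨v, hvB, ?_⟩
      rw [hvp]
      exact coeff_of_k3 a m (F v) hm hn hs
    tfae_finish
  | ab a =>
    have hn' : n = 4 := hn
    subst hn'
    have hpos : (0 : ℝ) < 1 / ((4 : ℕ).choose 2 : ℝ) ^ 2 := by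
      have : Nat.choose 4 2 = 6 := by decide
      rw [this]
      norm_num
    tfae_have 1 → 3 := by
      rintro ⟨v₀, hv₀, h₀⟩
      have h1 := engine B hB R F hR (2 * a + 1) hW 2 (2 * a + 1) (Or.inr rfl) (by omega) (by ring)
        v₀ hv₀ h₀
      refine h1.trans (lowerDensity_mono _ _ ?_)
      rintro v ⟨hv, hp, hno⟩
      haveI : Fact (Ideal.absNorm v.asIdeal).Prime := ⟨hp⟩
      obtain ⟨hm, hn⟩ := monic_of B R F hR v hv
      refine all_of_slopes B R F hR _ v hv hp ?_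
      exact newton_ab a (F v) hm hn (hW v hv) (fun k hk => hM v hv hp k hk) hno
    tfae_have 3 → 2 := by
      intro h
      refine (infinite_of _ _ hpos h).mono ?_
      rintro v ⟨hv, -⟩
      exact hv
    tfae_have 2 → 1 := by
      intro h
      obtain ⟨v, hv, hvB⟩ := (h.sdiff hB).nonempty
      obtain ⟨p, hp, hvp, hs⟩ := slopes_of_ordinary B R F hR _ v hvB hv
      obtain ⟨hm, hn⟩ := monic_of B R F hR v hvB
      refine ⟨v, hvB, ?_⟩
      rw [hvp]
      exact coeff_of_ab a (F v) hm hs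
    tfae_finish

end Pool.Agent.Results.MP_0dad22_ag.OnePrimeSuffices
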